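import Pool.Agent.H71.MO.All

/-!
# Vaught's conjecture for linear orders with monotone relations

Structures consist of a linear order of the natural numbers, countably many binary relations, each
of which is monotone in each variable (increasing or decreasing), and a function from the natural
numbers to a standard Borel space.  We show that every Borel isomorphism invariant class of
structures has perfectly many isomorphism types, or its members which are of this kind have only
countably many isomorphism types.  For a monotone map `f` the relation `f x ≤ y` is monotone, so
this contains linear orders with countably many order preserving or order reversing maps, for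
instance with an action of a countable group.
-/

set_option autoImplicit false

open Set

namespace Pool.Agent.H71.Keep.MonotoneOrders

/-- Structures: a binary relation, the order, countably many further binary relations, and a
colour in `C` for every point. -/
abbrev Structure (C : Type) : Type := (ℕ → ℕ → Bool) × (ℕ → ℕ → ℕ → Bool) × (ℕ → C)

/-- `g` is an isomorphism from the structure `x` onto the structure `y`. -/
def IsIsomorphism {C : Type} (x y : Structure C) (g : Equiv.Perm ℕ) : Prop :=
  (∀ a b, y.1 (g a) (g b) = x.1 a b) ∧ (∀ k a b, y.2.1 k (g a) (g b) = x.2.1 k a b) ∧
    ∀ a, y.2.2 (g a) = x.2.2 a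

/-- `A` contains structures of only countably many isomorphism types. -/
def CountablyManyTypes {C : Type} (A : Set (Structure C)) : Prop :=
  ∃ D : Set (Structure C), D.Countable ∧ ∀ x ∈ A, ∃ y ∈ D, ∃ g, IsIsomorphism x y g

/-- `A` contains structures of perfectly many isomorphism types: some Borel map from the Cantor
space to `A` takes distinct points to structures which are not isomorphic. -/
def PerfectlyManyTypes {C : Type} [MeasurableSpace C] (A : Set (Structure C)) : Prop :=
  ∃ F : (ℕ → Bool) → Structure C, Measurable F ∧ (∀ u, F u ∈ A) ∧
    ∀ u v, u ≠ v → ¬ ∃ g, IsIsomorphism (F u) (F v) g

/-- `r` is a strict linear order. -/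
def IsLinear (r : ℕ → ℕ → Bool) : Prop :=
  (∀ a, r a a = false) ∧ (∀ a b, a ≠ b → r a b = true ∨ r b a = true) ∧
    ∀ a b d, r a b = true → r b d = true → r a d = true

/-- `a` is less than or equal to `b` in the order `r`, if `ε` is `true`, and in the reversed order,
if `ε` is `false`. -/
def OrderLE (r : ℕ → ℕ → Bool) (ε : Bool) (a b : ℕ) : Prop :=
  a = b ∨ (if ε = true then r a b = true else r b a = true)

/-- The relation `s` is monotone in each variable: it is inherited to smaller first arguments and
to larger second arguments, where the directions of the two variables are given by `ε` and `δ`. -/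
def IsMonotoneRelation (r s : ℕ → ℕ → Bool) : Prop :=
  ∃ ε δ : Bool, ∀ a a' b b', OrderLE r ε a' a → s a b = true → OrderLE r δ b b' → s a' b' = true

/-- linear orders with monotone relations -/
def IsMonotone {C : Type} (x : Structure C) : Prop :=
  IsLinear x.1 ∧ ∀ k, IsMonotoneRelation x.1 (x.2.1 k)

/-- **Theorem.** Let `X` be a Borel isomorphism invariant class of structures.  Then `X` has
perfectly many isomorphism types, or the linear orders with monotone relations in `X` have only
countably many isomorphism types. -/
theorem result {C : Type} [MeasurableSpace C] [StandardBorelSpace C] (X : Set (Structure C))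
    (hX : MeasurableSet X) (hinv : ∀ x ∈ X, ∀ y g, IsIsomorphism x y g → y ∈ X) :
    PerfectlyManyTypes X ∨ CountablyManyTypes {x ∈ X | IsMonotone x} :=
  Pool.Agent.MO.final_mo (fun c0 => Pool.Agent.MO.all_MOF c0) X hX hinv

end Pool.Agent.H71.Keep.MonotoneOrders
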