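import Pool.Agent.H8.WP.All
import Pool.Agent.H8.DE.All

/-!
# NE = coNE: the border for spectra of two-variable logic with special relations

The question of MP_64fb07_lc: is NE = coNE (the class `NE` is called NEXPTIME there)? A set `X` of
numbers gives the language `lang X` of the words `x` whose number (binary representation `1 x`) is in
`X`. The sets `X` considered here are spectra (sets of the sizes of finite models) of two-variable logic
with counting, where some of the binary relations are special: linear orders, forest orders,
equivalence relations, partial orders. With at most one linear order, forest order or equivalence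
relation, the languages are in `E` (deterministic time `2 ^ (c n)`); with two or more of them, of
whatever kinds, and with a single partial order, even of width two, the logic has an `NE`-complete
language (for reductions which are given by a polynomial on the numbers), which is in `coNE` if and
only if NE = coNE. The same for two linear orders with their successor relations and no counting, and
for planar graphs.
-/

set_option autoImplicit false

namespace Pool.Agent.Results.MP_64fb07_lc.Border

open Pool.Agent.H16.TO Pool.Agent.H8.PL Pool.Agent.H8.PU Pool.Agent.H8.DI Pool.Agent.H8.JS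
open Pool.Agent.H8.WP Pool.Agent.H8.DE

theorem result :
    (∀ (l : ℕ) (τ : ℕ → Kd) (φ : C2),
      lang (specK l τ φ) ∈ NE ∧ (l ≤ 1 → lang (specK l τ φ) ∈ DE)) ∧
    (∀ (l : ℕ) (τ : ℕ → Kd), 2 ≤ l → ∃ φ : C2,
      NEComplete (specK l τ φ) ∧ (lang (specK l τ φ) ∈ coNE ↔ NE = coNE)) ∧
    (∃ φ : C2, ∀ C, Pool.Agent.H8.WP.Btw C →
      NEComplete (specC C φ) ∧ (lang (specC C φ) ∈ coNE ↔ NE = coNE)) ∧
    (∃ φ : C2, φ.NoCount ∧ φ.BinLt 4 ∧
      NEComplete (specS φ) ∧ (lang (specS φ) ∈ coNE ↔ NE = coNE)) ∧
    (∀ φ : G2, lang (specPl φ) ∈ NE) ∧
    ∃ φ : G2, NEComplete (specPl φ) ∧ (lang (specPl φ) ∈ coNE ↔ NE = coNE) :=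
  ⟨fun l τ φ => ⟨(v_1 l τ φ).1, d_sk l τ φ⟩, v_2, v_6, v_3, v_4, v_5⟩

end Pool.Agent.Results.MP_64fb07_lc.Border
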