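import Pool.Agent.H77.PM.Asm

/-!
# Vaught's conjecture for classes of Polish metric structures closed under substructures

A Polish metric structure is a separable complete metric space `M` with countably many continuous
maps `M ^ (ar i) → Z`, `i ∈ ι`, into a Polish space `Z` (relations, functions into the reals, labels
of tuples). All structures are infinite. A structure is coded by an injective enumeration `p` of a
dense subset: the distances of the points `p i`, `p j`, and the values of the maps at the tuples of
these points. Discrete structures are those with all distances `0` and `1`; then the theorem is about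
arbitrary countable relational structures with labels in `Z`.

Parts 1. to 3. are for languages of bounded arity.

1. An analytic set `X` of codes contains codes of countably many isomorphism types, or of perfectly
   many isomorphism types, or uncountably many isomorphism types of structures whose infinite closed
   substructures have perfectly many isomorphism types.
2. Let `X` be the union of countably many analytic sets `Y n` of codes, such that `Y n` is closed
   under infinite closed substructures which contain the first `k n` points of the enumeration. Then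
   `X` contains countably many or perfectly many isomorphism types.
3. The infinite closed substructures of every Polish metric structure have countably many or
   perfectly many isomorphism types; perfectly many if its distances take infinitely many values.
4. All arities: every isomorphism invariant set of codes which is a countable union of closed sets,
   relatively to the set of all codes, contains countably many or perfectly many isomorphism types.
-/

set_option autoImplicit false

open Set

namespace Pool.Agent.Results.MP_5607ba_lc.HereditaryClasses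

/-- A metric structure: a complete metric space with continuous maps. It is separable if it has a
code. -/
structure MetricStructure (ι : Type) (ar : ι → ℕ) (Z : Type) [TopologicalSpace Z] where
  /-- the points -/
  Point : Type
  [metric : MetricSpace Point]
  [complete : CompleteSpace Point]
  /-- the map of arity `ar i` -/
  map : (i : ι) → (Fin (ar i) → Point) → Z
  continuous_map : ∀ i, Continuous (map i)

attribute [instance] MetricStructure.metric MetricStructure.complete

/-- The Polish space which contains the codes: distances and values of the maps for the points of a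
sequence. -/
abbrev Code (ι : Type) (ar : ι → ℕ) (Z : Type) : Type :=
  (ℕ → ℕ → ℝ) × ((i : ι) → (Fin (ar i) → ℕ) → Z)

/-- Analytic sets: the empty set and the images of Borel maps defined on the Baire space. -/
def IsAnalytic {X : Type} [MeasurableSpace X] (A : Set X) : Prop :=
  A = ∅ ∨ ∃ f : (ℕ → ℕ) → X, Measurable f ∧ range f = A

section

variable {ι : Type} {ar : ι → ℕ} {Z : Type} [TopologicalSpace Z]

/-- The distances and the values of the maps for the points of the sequence `p`. -/
def code (S : MetricStructure ι ar Z) (p : ℕ → S.Point) : Code ι ar Z :=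
  (fun i j => dist (p i) (p j), fun i a => S.map i (p ∘ a))

/-- `p` is an enumeration without repetitions of a dense set of points. -/
def Enumerates (S : MetricStructure ι ar Z) (p : ℕ → S.Point) : Prop :=
  Function.Injective p ∧ DenseRange p

/-- `x` is a code of the structure `S`. -/
def IsCode (S : MetricStructure ι ar Z) (x : Code ι ar Z) : Prop :=
  ∃ p, Enumerates S p ∧ x = code S p

/-- `S` and `T` are isomorphic: there is an isometry from `S` onto `T` which preserves the maps. -/
def Isomorphic (S T : MetricStructure ι ar Z) : Prop :=
  ∃ e : S.Point ≃ T.Point, (∀ a b, dist (e a) (e b) = dist a b) ∧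
    ∀ i a, T.map i (e ∘ a) = S.map i a

/-- `x` and `y` are codes of isomorphic structures. -/
def SameType (x y : Code ι ar Z) : Prop :=
  ∃ S T : MetricStructure ι ar Z, IsCode S x ∧ IsCode T y ∧ Isomorphic S T

/-- `A` contains codes of only countably many isomorphism types. -/
def CountablyManyTypes (A : Set (Code ι ar Z)) : Prop :=
  ∃ D : Set (Code ι ar Z), D.Countable ∧ ∀ x ∈ A, ∃ y ∈ D, SameType x y

/-- `A` contains codes of perfectly many isomorphism types: some Borel map from the Cantor space to
`A` takes distinct points to codes of structures which are not isomorphic. -/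
def PerfectlyManyTypes [MeasurableSpace Z] (A : Set (Code ι ar Z)) : Prop :=
  ∃ F : (ℕ → Bool) → Code ι ar Z, Measurable F ∧ (∀ u, F u ∈ A) ∧
    ∀ u v, u ≠ v → ¬ SameType (F u) (F v)

/-- The codes of the infinite closed substructures of the structure with the code `x`: the
sequence `q` enumerates a dense subset of the closed substructure. -/
def Substructures (x : Code ι ar Z) : Set (Code ι ar Z) :=
  {y | ∃ (S : MetricStructure ι ar Z) (p q : ℕ → S.Point), Enumerates S p ∧ x = code S p ∧
    Function.Injective q ∧ y = code S q}

/-- `A` contains with the code given by an enumeration `p` of a dense set the codes of the infinite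
closed substructures that contain `p 0, …, p (m - 1)`, in all their enumerations `q` which begin with
these points. For `m = 0` this says that `A` is closed under infinite closed substructures. -/
def ClosedOver (m : ℕ) (A : Set (Code ι ar Z)) : Prop :=
  ∀ (S : MetricStructure ι ar Z) (p q : ℕ → S.Point), Enumerates S p → code S p ∈ A →
    Function.Injective q → (∀ i < m, q i = p i) → code S q ∈ A

/-! ### Translation to the definitions of the modules of the proof -/

/-- The same structure. -/
def toMS (S : MetricStructure ι ar Z) : Pool.Agent.H77.PM.MS ι ar Z :=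
  ⟨S.Point, S.map, S.continuous_map⟩

/-- The same structure. -/
def ofMS (S : Pool.Agent.H77.PM.MS ι ar Z) : MetricStructure ι ar Z :=
  ⟨S.M, S.f, S.cont⟩

theorem sameType_iff (x y : Code ι ar Z) : SameType x y ↔ Pool.Agent.H77.PM.Same x y :=
  ⟨fun ⟨S, T, h1, h2, h3⟩ => ⟨toMS S, toMS T, h1, h2, h3⟩,
    fun ⟨S, T, h1, h2, h3⟩ => ⟨ofMS S, ofMS T, h1, h2, h3⟩⟩

theorem countably_iff (A : Set (Code ι ar Z)) :
    CountablyManyTypes A ↔ Pool.Agent.H77.PM.CountablyMany A := by
  unfold CountablyManyTypes Pool.Agent.H77.PM.CountablyMany
  simp only [sameType_iff]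

theorem perfectly_iff [MeasurableSpace Z] (A : Set (Code ι ar Z)) :
    PerfectlyManyTypes A ↔ Pool.Agent.H77.PM.PerfectlyMany A := by
  unfold PerfectlyManyTypes Pool.Agent.H77.PM.PerfectlyMany
  simp only [sameType_iff]

theorem substructures_eq (x : Code ι ar Z) : Substructures x = Pool.Agent.H77.PM.Sub x := by
  ext y
  exact ⟨fun ⟨S, p, q, h1, h2, h3, h4⟩ => ⟨toMS S, p, q, h1, h2, h3, h4⟩,
    fun ⟨S, p, q, h1, h2, h3, h4⟩ => ⟨ofMS S, p, q, h1, h2, h3, h4⟩⟩

theorem closedOver_iff (m : ℕ) (A : Set (Code ι ar Z)) :
    ClosedOver m A ↔ Pool.Agent.H77.PM.ClosedOver m A :=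
  ⟨fun h S p q h1 h2 h3 h4 => h (ofMS S) p q h1 h2 h3 h4,
    fun h S p q h1 h2 h3 h4 => h (toMS S) p q h1 h2 h3 h4⟩

theorem exists_code_iff (x : Code ι ar Z) :
    (∃ S, IsCode S x) ↔ ∃ S, Pool.Agent.H77.PM.IsCode S x :=
  ⟨fun ⟨S, h⟩ => ⟨toMS S, h⟩, fun ⟨S, h⟩ => ⟨ofMS S, h⟩⟩

end

/-- Vaught's conjecture for classes of Polish metric structures which are closed under closed
substructures, and for `Σ_2` classes of Polish metric structures. -/
theorem result (ι : Type) [Countable ι] (ar : ι → ℕ) (Z : Type) [TopologicalSpace Z]
    [PolishSpace Z] [MeasurableSpace Z] [BorelSpace Z] :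
    ((∃ r, ∀ i, ar i ≤ r) →
      (∀ X : Set (Code ι ar Z), IsAnalytic X → (∀ x ∈ X, ∃ S, IsCode S x) →
        CountablyManyTypes X ∨ PerfectlyManyTypes X ∨
          ¬ CountablyManyTypes {x ∈ X | PerfectlyManyTypes (Substructures x)}) ∧
      (∀ (k : ℕ → ℕ) (Y : ℕ → Set (Code ι ar Z)),
        (∀ n, IsAnalytic (Y n) ∧ (∀ x ∈ Y n, ∃ S, IsCode S x) ∧ ClosedOver (k n) (Y n)) →
          CountablyManyTypes (⋃ n, Y n) ∨ PerfectlyManyTypes (⋃ n, Y n)) ∧
      ∀ (S : MetricStructure ι ar Z) (x : Code ι ar Z), IsCode S x →
        (CountablyManyTypes (Substructures x) ∨ PerfectlyManyTypes (Substructures x)) ∧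
        ({d : ℝ | ∃ a b : S.Point, dist a b = d}.Infinite →
          PerfectlyManyTypes (Substructures x))) ∧
    ∀ X : Set (Code ι ar Z), (∀ x ∈ X, ∃ S, IsCode S x) →
      (∃ C : ℕ → Set (Code ι ar Z), (∀ n, IsClosed (C n)) ∧
        ∀ x, (∃ S, IsCode S x) → (x ∈ X ↔ ∃ n, x ∈ C n)) →
      (∀ x ∈ X, ∀ y, SameType x y → y ∈ X) →
        CountablyManyTypes X ∨ PerfectlyManyTypes X := by
  simp only [countably_iff, perfectly_iff, substructures_eq, closedOver_iff, exists_code_iff,
    sameType_iff]
  refine ⟨fun ⟨r, hr⟩ => ⟨fun X hX hc => Pool.Agent.H77.PM.p1 r ι ar hr Z X hX hc,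
    fun k Y hY => Pool.Agent.H77.PM.p2 r ι ar hr Z k Y hY,
    fun S x hx => ⟨Pool.Agent.H77.PM.p3 r ι ar hr Z x ⟨toMS S, hx⟩, fun hd => ?_⟩⟩,
    fun X hX hC hI => Pool.Agent.H77.PM.p4 ι ar Z X hX hC hI⟩
  obtain ⟨p, hp, rfl⟩ := hx
  refine Pool.Agent.H77.PM.c_PER ι ar Z (toMS S) p 0 _ hp.1 ?_
    fun q hq _ => ⟨toMS S, p, q, hp, rfl, hq, rfl⟩
  refine hd.mono ?_
  rintro d ⟨a, b, rfl⟩
  exact ⟨(a, b), rfl⟩

end Pool.Agent.Results.MP_5607ba_lc.HereditaryClasses
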