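import Pool.Agent.H71.HV.ALL

/-!
# A local form of Hjorth's theorem on Vaught's conjecture for analytic sets

For an arbitrary Polish group `G`, a Borel `G`-space `X` and an analytic set `A ⊆ X`: if `A` meets
uncountably many but not perfectly many orbits, then `A` meets uncountably many orbits of points
whose stabiliser is divisible by the infinite symmetric group.
-/

set_option autoImplicit false

open Set

namespace Pool.Agent.H71.Keep.LocalHjorth

/-- The subgroup `K` of the topological group `G` is divisible by the infinite symmetric group: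
some closed subgroup `H` of `G` contained in `K` has a surjective homomorphism onto
`Equiv.Perm ℕ` which is continuous for the topology of pointwise convergence, that is, for all
`n`, `m` the set of the `h` whose image maps `n` to `m` is open. -/
def DivisibleBySymInf {G : Type*} [Group G] [TopologicalSpace G] (K : Subgroup G) : Prop :=
  ∃ H : Subgroup G, H ≤ K ∧ IsClosed (H : Set G) ∧
    ∃ φ : H →* Equiv.Perm ℕ, Function.Surjective φ ∧ ∀ n m : ℕ, IsOpen {h : H | φ h n = m}

/-- Analytic subsets of a standard Borel space: the empty set and the images of Borel maps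
defined on the Baire space. -/
def IsAnalytic {X : Type*} [MeasurableSpace X] (A : Set X) : Prop :=
  A = ∅ ∨ ∃ f : (ℕ → ℕ) → X, Measurable f ∧ range f = A

/-- `A` meets only countably many orbits. -/
def CountablyManyOrbits (G : Type*) {X : Type*} [Group G] [MulAction G X] (A : Set X) : Prop :=
  ∃ C : Set X, C.Countable ∧ ∀ x ∈ A, ∃ y ∈ C, ∃ g : G, g • x = y

/-- `A` meets perfectly many orbits: some Borel map from the Cantor space to `X` takes distinct
points to points of `A` in distinct orbits. -/
def PerfectlyManyOrbits (G : Type*) {X : Type*} [Group G] [MulAction G X] [MeasurableSpace X]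
    (A : Set X) : Prop :=
  ∃ F : (ℕ → Bool) → X, Measurable F ∧ (∀ u, F u ∈ A) ∧
    ∀ u v, u ≠ v → ¬ ∃ g : G, g • F u = F v

/-- **Theorem.** Let the Polish group `G` act in a Borel way on the standard Borel space `X` and
let `A` be an analytic subset of `X`.  Then `A` meets only countably many orbits, or perfectly many
orbits, or it contains points of uncountably many orbits whose stabiliser is divisible by the
infinite symmetric group. -/
theorem result {G X : Type*} [Group G] [TopologicalSpace G] [IsTopologicalGroup G]
    [PolishSpace G] [MeasurableSpace G] [BorelSpace G] [MeasurableSpace X]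
    [StandardBorelSpace X] [MulAction G X] (hact : Measurable fun p : G × X => p.1 • p.2)
    (A : Set X) (hA : IsAnalytic A) :
    CountablyManyOrbits G A ∨ PerfectlyManyOrbits G A ∨
      ¬ CountablyManyOrbits G {x ∈ A | DivisibleBySymInf (MulAction.stabilizer G x)} := by
  rcases hA with rfl | ⟨f, hf, rfl⟩
  · exact Or.inl ⟨∅, countable_empty, fun x hx => hx.elim⟩
  rcases Pool.Agent.H71.HV.localHjorth G X hact f hf with ⟨c, hc⟩ | ⟨F, hF1, hF2⟩ | h
  · left
    refine ⟨range c, countable_range c, ?_⟩
    rintro _ ⟨z, rfl⟩
    obtain ⟨n, g, hg⟩ := hc z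
    exact ⟨c n, ⟨n, rfl⟩, g, hg⟩
  · right
    left
    exact ⟨fun u => f (F u), hf.comp hF1.measurable, fun u => ⟨F u, rfl⟩,
      fun u v huv ⟨g, hg⟩ => hF2 u v huv g hg⟩
  · right
    right
    rintro ⟨C, hC1, hC2⟩
    apply h
    by_cases hne : C.Nonempty
    · obtain ⟨c, rfl⟩ := hC1.exists_eq_range hne
      refine ⟨c, fun z hz => ?_⟩
      obtain ⟨_, ⟨n, rfl⟩, g, hg⟩ := hC2 (f z) ⟨⟨z, rfl⟩, hz⟩
      exact ⟨n, g, hg⟩
    · refine ⟨fun _ => f 0, fun z hz => ?_⟩
      obtain ⟨y, hy, -⟩ := hC2 (f z) ⟨⟨z, rfl⟩, hz⟩
      exact absurd ⟨y, hy⟩ hne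

end Pool.Agent.H71.Keep.LocalHjorth
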