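import Pool.Agent.H71.MO.All
import Pool.Agent.H71.AL.All

/-!
# Vaught's conjecture for linear orders with monotone relations and for actions on the line

The first part is about linear orders of the natural numbers with countably many binary relations,
each of which is monotone in each variable (increasing or decreasing), and a function from the
natural numbers to a standard Borel space.  Every Borel isomorphism invariant class of structures
has perfectly many isomorphism types, or its members which are of this kind have only countably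
many isomorphism types.  For a monotone map `f` the relation `f x ≤ y` is monotone, so this
contains linear orders with countably many order preserving or order reversing maps.

The other parts are the topological Vaught conjecture for the automorphism group of the rational
order, acting on sequences of monotone maps, for the group of the increasing homeomorphisms of
the real line, acting on sequences of homeomorphisms of the line, and for the group of the
orientation preserving homeomorphisms of the circle, acting on sequences of its elements.  All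
groups act by conjugation.
-/

set_option autoImplicit false

open Set

namespace Pool.Agent.Results.MP_5607ba_lc.MonotoneOrders

/-- Structures: a binary relation, the order, countably many further binary relations, and a
colour in `C` for every point. -/
abbrev Structure (C : Type) : Type := (ℕ → ℕ → Bool) × (ℕ → ℕ → ℕ → Bool) × (ℕ → C)

/-- `g` is an isomorphism from the structure `x` onto the structure `y`. -/
def IsIsomorphism {C : Type} (x y : Structure C) (g : Equiv.Perm ℕ) : Prop :=
  (∀ a b, y.1 (g a) (g b) = x.1 a b) ∧ (∀ k a b, y.2.1 k (g a) (g b) = x.2.1 k a b) ∧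
    ∀ a, y.2.2 (g a) = x.2.2 a

/-- `A` contains structures of only countably many isomorphism types. -/
def CountablyManyTypes {C : Type} (A : Set (Structure C)) : Prop :=
  ∃ D : Set (Structure C), D.Countable ∧ ∀ x ∈ A, ∃ y ∈ D, ∃ g, IsIsomorphism x y g

/-- `A` contains structures of perfectly many isomorphism types: some Borel map from the Cantor
space to `A` takes distinct points to structures which are not isomorphic. -/
def PerfectlyManyTypes {C : Type} [MeasurableSpace C] (A : Set (Structure C)) : Prop :=
  ∃ F : (ℕ → Bool) → Structure C, Measurable F ∧ (∀ u, F u ∈ A) ∧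
    ∀ u v, u ≠ v → ¬ ∃ g, IsIsomorphism (F u) (F v) g

/-- `r` is a strict linear order. -/
def IsLinear (r : ℕ → ℕ → Bool) : Prop :=
  (∀ a, r a a = false) ∧ (∀ a b, a ≠ b → r a b = true ∨ r b a = true) ∧
    ∀ a b d, r a b = true → r b d = true → r a d = true

/-- `a` is less than or equal to `b` in the order `r`, if `ε` is `true`, and in the reversed order,
if `ε` is `false`. -/
def OrderLE (r : ℕ → ℕ → Bool) (ε : Bool) (a b : ℕ) : Prop :=
  a = b ∨ (if ε = true then r a b = true else r b a = true)

/-- The relation `s` is monotone in each variable: it is inherited to smaller first arguments and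
to larger second arguments, where the directions of the two variables are given by `ε` and `δ`. -/
def IsMonotoneRelation (r s : ℕ → ℕ → Bool) : Prop :=
  ∃ ε δ : Bool, ∀ a a' b b', OrderLE r ε a' a → s a b = true → OrderLE r δ b b' → s a' b' = true

/-- linear orders with monotone relations -/
def IsMonotone {C : Type} (x : Structure C) : Prop :=
  IsLinear x.1 ∧ ∀ k, IsMonotoneRelation x.1 (x.2.1 k)

/-- The countable-or-perfect dichotomy for a relation `E` on a set `S`, whose Borel sets are the
preimages of the Borel sets of `V` under the map `code`: every `E`-invariant Borel set `A` meets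
perfectly many classes, which means that some Borel map from the Cantor space to `A` takes
distinct points to points which are not related, or `A` meets only countably many classes. -/
def Dichotomy {S V : Type} [MeasurableSpace V] (code : S → V) (E : S → S → Prop) : Prop :=
  ∀ A : Set S, (∃ B : Set V, MeasurableSet B ∧ A = code ⁻¹' B) →
    (∀ s ∈ A, ∀ t, E s t → t ∈ A) →
    (∃ F : (ℕ → Bool) → S, Measurable (fun u => code (F u)) ∧ (∀ u, F u ∈ A) ∧
      ∀ u v, u ≠ v → ¬ E (F u) (F v)) ∨
    ∃ D : Set S, D.Countable ∧ ∀ s ∈ A, ∃ t ∈ D, E s t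

/-- The sequences of monotone maps of the rational numbers, increasing or decreasing in the weak
sense. -/
abbrev MonotoneMaps : Type := {f : ℕ → ℚ → ℚ // ∀ k, Monotone (f k) ∨ Antitone (f k)}

/-- Two sequences of maps are conjugate by an automorphism of the rational order. -/
def ConjugateRat (f f' : MonotoneMaps) : Prop := ∃ g : ℚ ≃o ℚ, ∀ k x, g (f.1 k x) = f'.1 k (g x)

/-- The values of a sequence of homeomorphisms of the line at the rational numbers; this map gives
the Borel structure of the Polish group of homeomorphisms and of its countable power. -/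
def rationalValues (h : ℕ → ℝ ≃ₜ ℝ) : ℕ → ℚ → ℝ := fun k q => h k q

/-- Two sequences of homeomorphisms of the line are conjugate by an increasing homeomorphism. -/
def ConjugateLine (h h' : ℕ → ℝ ≃ₜ ℝ) : Prop :=
  ∃ g : ℝ ≃ₜ ℝ, StrictMono g ∧ ∀ k x, g (h k x) = h' k (g x)

/-- `h` is a lift of an orientation preserving homeomorphism of the circle, the quotient of the
real line by the integers. -/
def IsLift (h : ℝ ≃ₜ ℝ) : Prop := StrictMono h ∧ ∀ x, h (x + 1) = h x + 1

/-- The sequences of lifts. -/
abbrev Lifts : Type := {h : ℕ → ℝ ≃ₜ ℝ // ∀ k, IsLift (h k)}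

/-- The sequences of homeomorphisms of the circle given by two sequences of lifts are conjugate by
an orientation preserving homeomorphism of the circle. -/
def ConjugateCircle (h h' : Lifts) : Prop :=
  ∃ g : ℝ ≃ₜ ℝ, IsLift g ∧ ∀ k, ∃ n : ℤ, ∀ x, g (h.1 k x) = h'.1 k (g x) + n

theorem part_rat : Dichotomy (fun f : MonotoneMaps => f.1) ConjugateRat := by
  rintro A ⟨B, hB, rfl⟩ hinv
  have hmon : MeasurableSet {f : ℕ → ℚ → ℚ | ∀ k, Monotone (f k) ∨ Antitone (f k)} := by
    have h1 : {f : ℕ → ℚ → ℚ | ∀ k, Monotone (f k) ∨ Antitone (f k)} =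
        ⋂ k : ℕ, ((⋂ a : ℚ, ⋂ b : ℚ, {f : ℕ → ℚ → ℚ | a ≤ b → f k a ≤ f k b}) ∪
          (⋂ a : ℚ, ⋂ b : ℚ, {f : ℕ → ℚ → ℚ | a ≤ b → f k b ≤ f k a})) := by
      ext f
      simp only [mem_ofPred_eq, mem_iInter, mem_union, Monotone, Antitone]
    rw [h1]
    have h2 : ∀ (k : ℕ) (a : ℚ), Measurable (fun f : ℕ → ℚ → ℚ => f k a) := fun k a =>
      (measurable_pi_apply a).comp (measurable_pi_apply k)
    have h3 : ∀ (k : ℕ) (a b c d : ℚ), MeasurableSet {f : ℕ → ℚ → ℚ | a ≤ b → f k c ≤ f k d} := by
      intro k a b c d
      by_cases hab : a ≤ b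
      · have : {f : ℕ → ℚ → ℚ | a ≤ b → f k c ≤ f k d} = {f | f k c ≤ f k d} := by
          ext f
          simp [hab]
        rw [this]
        have h4 : Measurable (fun f : ℕ → ℚ → ℚ => (f k c, f k d)) := (h2 k c).prodMk (h2 k d)
        exact h4 (MeasurableSet.of_discrete (s := {p : ℚ × ℚ | p.1 ≤ p.2}))
      · have : {f : ℕ → ℚ → ℚ | a ≤ b → f k c ≤ f k d} = univ := by
          ext f
          simp [hab]
        rw [this]
        exact MeasurableSet.univ
    refine MeasurableSet.iInter fun k => MeasurableSet.union ?_ ?_
    · exact MeasurableSet.iInter fun a => MeasurableSet.iInter fun b => h3 k a b a b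
    · exact MeasurableSet.iInter fun a => MeasurableSet.iInter fun b => h3 k a b b a
  have hmi : ∀ f : ℕ → ℚ → ℚ, (∀ k, Monotone (f k) ∨ Antitone (f k)) → ∀ f',
      Pool.Agent.AL.CjQ f f' → ∀ k, Monotone (f' k) ∨ Antitone (f' k) := by
    rintro f hf f' ⟨g, hg⟩ k
    have h1 : ∀ x, f' k x = g (f k (g.symm x)) := by
      intro x
      have := hg k (g.symm x)
      rw [g.apply_symm_apply] at this
      exact this.symm
    rcases hf k with h | h
    · left
      intro a b hab
      rw [h1, h1]
      exact g.monotone (h (g.symm.monotone hab))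
    · right
      intro a b hab
      rw [h1, h1]
      exact g.monotone (h (g.symm.monotone hab))
  rcases Pool.Agent.AL.final.2.1 (B ∩ {f | ∀ k, Monotone (f k) ∨ Antitone (f k)}) (hB.inter hmon)
    (fun f hf => hf.2)
    (fun f hf f' hff => ⟨hinv ⟨f, hf.2⟩ hf.1 ⟨f', hmi f hf.2 f' hff⟩ hff, hmi f hf.2 f' hff⟩) with
    h | h
  · obtain ⟨F, hF, hFB, hne⟩ := h
    exact Or.inl ⟨fun u => ⟨F u, (hFB u).2⟩, hF, fun u => (hFB u).1, hne⟩
  · obtain ⟨D, hD, hDB⟩ := h
    refine Or.inr ⟨{f : MonotoneMaps | f.1 ∈ D}, ?_, ?_⟩
    · exact hD.preimage Subtype.val_injective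
    · intro s hs
      obtain ⟨f', hf', hc⟩ := hDB s.1 ⟨hs, s.2⟩
      exact ⟨⟨f', hmi s.1 s.2 f' hc⟩, hf', hc⟩

theorem part_line : Dichotomy rationalValues ConjugateLine := by
  rintro A ⟨B, hB, rfl⟩ hinv
  exact Pool.Agent.AL.final.1 B hB (fun h h' hc hh => hinv h hh h' hc)

theorem lift_of_conj (h h' : ℕ → ℝ ≃ₜ ℝ) (hh : ∀ k, IsLift (h k)) (hc : Pool.Agent.AL.Cc h h') :
    ∀ k, IsLift (h' k) := by
  obtain ⟨g, ⟨hg, hg1⟩, hc⟩ := hc
  intro k
  obtain ⟨n, hn⟩ := hc k
  have h1 : ∀ y, h' k y = g (h k (g.symm y)) - n := by
    intro y
    have := hn (g.symm y)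
    rw [g.apply_symm_apply] at this
    linarith
  have hgs : StrictMono g.symm := by
    intro a b hab
    by_contra hcon
    have h2 := hg.monotone (not_lt.mp hcon)
    rw [g.apply_symm_apply, g.apply_symm_apply] at h2
    linarith
  have hg1s : ∀ y, g.symm (y + 1) = g.symm y + 1 := by
    intro y
    apply g.injective
    rw [g.apply_symm_apply, hg1, g.apply_symm_apply]
  refine ⟨?_, ?_⟩
  · intro a b hab
    rw [h1, h1]
    have := hg ((hh k).1 (hgs hab))
    linarith
  · intro x
    rw [h1, h1, hg1s, (hh k).2, hg1]
    ring

theorem part_circle : Dichotomy (fun h : Lifts => rationalValues h.1) ConjugateCircle := by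
  rintro A ⟨B, hB, rfl⟩ hinv
  rcases Pool.Agent.AL.final.2.2 B hB
    (fun h h' hh hh' hc hhB => hinv ⟨h, hh⟩ hhB ⟨h', hh'⟩ hc) with h | h
  · obtain ⟨F, hF, hFB, hne⟩ := h
    exact Or.inl ⟨fun u => ⟨F u, (hFB u).1⟩, hF, fun u => (hFB u).2, hne⟩
  · obtain ⟨D, hD, hDB⟩ := h
    refine Or.inr ⟨{f : Lifts | f.1 ∈ D}, ?_, ?_⟩
    · exact hD.preimage Subtype.val_injective
    · intro s hs
      obtain ⟨f', hf', hc⟩ := hDB s.1 s.2 hs
      exact ⟨⟨f', lift_of_conj s.1 f' s.2 hc⟩, hf', hc⟩

/-- **Theorem.**
(1) Let `X` be a Borel isomorphism invariant class of structures.  Then `X` has perfectly many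
isomorphism types, or the linear orders with monotone relations in `X` have only countably many
isomorphism types.
(2) The topological Vaught conjecture for the automorphism group of the rational order, acting on
sequences of monotone maps by conjugation.
(3) The same for the increasing homeomorphisms of the line, acting on sequences of homeomorphisms
of the line.
(4) The same for the orientation preserving homeomorphisms of the circle, acting on sequences of
such homeomorphisms, which are given by lifts. -/
theorem result :
    (∀ (C : Type) [MeasurableSpace C] [StandardBorelSpace C] (X : Set (Structure C)),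
      MeasurableSet X → (∀ x ∈ X, ∀ y g, IsIsomorphism x y g → y ∈ X) →
      PerfectlyManyTypes X ∨ CountablyManyTypes {x ∈ X | IsMonotone x}) ∧
    Dichotomy (fun f : MonotoneMaps => f.1) ConjugateRat ∧
    Dichotomy rationalValues ConjugateLine ∧
    Dichotomy (fun h : Lifts => rationalValues h.1) ConjugateCircle :=
  ⟨fun _ _ _ X hX hinv =>
    Pool.Agent.MO.final_mo (fun c0 => Pool.Agent.MO.all_MOF c0) X hX hinv,
    part_rat, part_line, part_circle⟩

end Pool.Agent.Results.MP_5607ba_lc.MonotoneOrders
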