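import Pool.Agent.H71.HV.ALL
import Pool.Agent.H41.RLH.Lists

/-!
# Local and relative forms of Hjorth's theorem on Vaught's conjecture

An analytic set `A` of a Borel `G`-space (`G` any Polish group) which meets uncountably many but not
perfectly many orbits meets uncountably many orbits of points whose stabiliser is divisible by the
infinite symmetric group.

For countable structures there is a relative form: if to every structure `M` in `A` a group `N M` of
automorphisms is attached in an invariant and Borel way, then for uncountably many isomorphism types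
the infinite symmetric group is found modulo `N M`: a closed group `H` of automorphisms which
contains `N M` maps continuously onto `Sym(ℕ)`, with `N M` in the kernel.  For instance `N M` can be
the group of all automorphisms which move only finitely many points.
-/

set_option autoImplicit false

open Set

namespace Pool.Agent.H71.Keep.RelativeHjorth

/-- The group `K` is divisible by the infinite symmetric group modulo its subgroup `N`: some closed
subgroup `H` of the topological group `G` with `N ≤ H ≤ K` has a surjective homomorphism onto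
`Equiv.Perm ℕ` which is trivial on `N` and continuous for the topology of pointwise convergence,
that is, for all `n`, `m` the set of the `h` whose image maps `n` to `m` is open. -/
def DivisibleModulo {G : Type*} [Group G] [TopologicalSpace G] (N K : Subgroup G) : Prop :=
  ∃ H : Subgroup G, N ≤ H ∧ H ≤ K ∧ IsClosed (H : Set G) ∧
    ∃ φ : H →* Equiv.Perm ℕ, Function.Surjective φ ∧ (∀ n m : ℕ, IsOpen {h : H | φ h n = m}) ∧
      ∀ h : H, (h : G) ∈ N → φ h = 1

/-- Analytic subsets of a standard Borel space: the empty set and the images of Borel maps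
defined on the Baire space. -/
def IsAnalytic {X : Type*} [MeasurableSpace X] (A : Set X) : Prop :=
  A = ∅ ∨ ∃ f : (ℕ → ℕ) → X, Measurable f ∧ range f = A

/-- `A` meets only countably many orbits. -/
def CountablyManyOrbits (G : Type*) {X : Type*} [Group G] [MulAction G X] (A : Set X) : Prop :=
  ∃ C : Set X, C.Countable ∧ ∀ x ∈ A, ∃ y ∈ C, ∃ g : G, g • x = y

/-- `A` meets perfectly many orbits: some Borel map from the Cantor space to `X` takes distinct
points to points of `A` in distinct orbits. -/
def PerfectlyManyOrbits (G : Type*) {X : Type*} [Group G] [MulAction G X] [MeasurableSpace X]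
    (A : Set X) : Prop :=
  ∃ F : (ℕ → Bool) → X, Measurable F ∧ (∀ u, F u ∈ A) ∧
    ∀ u v, u ≠ v → ¬ ∃ g : G, g • F u = F v

/-- The conclusion: countably many orbits, or perfectly many orbits, or uncountably many orbits of
points `x` of `A` whose stabiliser is divisible by the infinite symmetric group modulo `N x`. -/
def Conclusion (G : Type*) {X : Type*} [Group G] [TopologicalSpace G] [MulAction G X]
    [MeasurableSpace X] (A : Set X) (N : X → Subgroup G) : Prop :=
  CountablyManyOrbits G A ∨ PerfectlyManyOrbits G A ∨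
    ¬ CountablyManyOrbits G {x ∈ A | DivisibleModulo (N x) (MulAction.stabilizer G x)}

/-- The structures with universe `ℕ`: every finite list of points has a label in `C`.  (Countable
structures for a countable language are the case `C = ℕ → Bool`, say.) -/
def Str (C : Type) : Type := List ℕ → C

instance {C : Type} [MeasurableSpace C] : MeasurableSpace (Str C) :=
  inferInstanceAs (MeasurableSpace (List ℕ → C))

/-- The action of `Sym(ℕ)` on the structures by renaming the points. -/
instance {C : Type} : MulAction (Equiv.Perm ℕ) (Str C) where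
  smul g M := fun l => M (l.map (g⁻¹ : Equiv.Perm ℕ))
  one_smul M := by
    funext l
    change M (l.map ((1 : Equiv.Perm ℕ)⁻¹ : Equiv.Perm ℕ)) = M l
    simp
  mul_smul g h M := by
    funext l
    change M (l.map ((g * h)⁻¹ : Equiv.Perm ℕ)) =
      M ((l.map (g⁻¹ : Equiv.Perm ℕ)).map (h⁻¹ : Equiv.Perm ℕ))
    rw [List.map_map, mul_inv_rev]
    rfl

/-- The usual Polish topology of the infinite symmetric group: the topology of pointwise
convergence of `g` and of `g⁻¹`. -/
instance permTopology : TopologicalSpace (Equiv.Perm ℕ) :=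
  TopologicalSpace.induced
    (fun g : Equiv.Perm ℕ => ((g : ℕ → ℕ), (g.symm : ℕ → ℕ))) inferInstance

/-- The automorphisms of `M` which move only finitely many points. -/
def finitaryAutomorphisms {C : Type} (M : Str C) : Subgroup (Equiv.Perm ℕ) where
  carrier := {g | g • M = M ∧ {i | g i ≠ i}.Finite}
  mul_mem' := by
    rintro a b ⟨ha, ha'⟩ ⟨hb, hb'⟩
    refine ⟨by rw [mul_smul, hb, ha], (ha'.union hb').subset fun i hi => ?_⟩
    by_contra hcon
    simp only [mem_union, mem_ofPred_eq, not_or, not_not] at hcon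
    apply hi
    change a (b i) = i
    rw [hcon.2, hcon.1]
  one_mem' := ⟨one_smul _ _, by simp⟩
  inv_mem' := by
    rintro a ⟨ha, ha'⟩
    refine ⟨by rw [inv_smul_eq_iff, ha], ha'.subset fun i hi h => hi ?_⟩
    change a.symm i = i
    rw [Equiv.symm_apply_eq, h]

lemma smul_iff {C : Type} {g : Equiv.Perm ℕ} {M M' : Str C} :
    g • M = M' ↔ Pool.Agent.H41.RLH.LIso g M M' := by
  constructor
  · rintro rfl l
    change M ((l.map g).map (g⁻¹ : Equiv.Perm ℕ)) = M l
    rw [List.map_map]
    congr 1
    conv_rhs => rw [← List.map_id l]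
    exact List.map_congr_left fun x _ => g.symm_apply_apply x
  · intro h
    funext l
    change M (l.map (g⁻¹ : Equiv.Perm ℕ)) = M' l
    rw [← h (l.map (g⁻¹ : Equiv.Perm ℕ)), List.map_map]
    congr 1
    conv_rhs => rw [← List.map_id l]
    exact List.map_congr_left fun x _ => g.apply_symm_apply x

/-- A pointwise condition on permutations is open. -/
lemma isOpen_agree (g : Equiv.Perm ℕ) (E : Finset ℕ) :
    IsOpen {h : Equiv.Perm ℕ | ∀ x ∈ E, h x = g x} := by
  have h1 : {h : Equiv.Perm ℕ | ∀ x ∈ E, h x = g x} = ⋂ x ∈ E, {h | h x = g x} := by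
    ext h
    simp
  rw [h1]
  refine isOpen_biInter_finset fun x _ => ?_
  refine isOpen_induced_iff.2 ⟨{p : (ℕ → ℕ) × (ℕ → ℕ) | p.1 x = g x}, ?_, rfl⟩
  have h2 : Continuous fun p : (ℕ → ℕ) × (ℕ → ℕ) => p.1 x :=
    (continuous_apply x).comp continuous_fst
  exact h2.isOpen_preimage {g x} (isOpen_discrete _)

lemma divisible_of {C : Type} {M : Str C} {N : Subgroup (Equiv.Perm ℕ)}
    (h : Pool.Agent.H41.RLH.LDiv M N) :
    DivisibleModulo N (MulAction.stabilizer (Equiv.Perm ℕ) M) := by
  obtain ⟨H, h1, h2, h3, φ, h4, h5, h6⟩ := h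
  refine ⟨H, h1, fun g hg => ?_, ?_, φ, h4, fun n m => ?_, h6⟩
  · rw [MulAction.mem_stabilizer_iff, smul_iff]
    exact h2 g hg
  · rw [← isOpen_compl_iff, isOpen_iff_mem_nhds]
    intro g hg
    by_contra hcon
    apply hg
    refine h3 g fun E => ?_
    by_contra hE
    push Not at hE
    apply hcon
    refine Filter.mem_of_superset ((isOpen_agree g E).mem_nhds fun x _ => rfl) fun h hh hH => ?_
    obtain ⟨x, hx, hne⟩ := hE h hH
    exact hne (hh x hx)
  · rw [isOpen_iff_mem_nhds]
    intro h hh
    obtain ⟨E, hE⟩ := h5 n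
    refine Filter.mem_of_superset ((((isOpen_agree (h : Equiv.Perm ℕ) E).preimage
      continuous_subtype_val)).mem_nhds fun x _ => rfl) fun h' hh' => ?_
    change φ h' n = m
    rw [← (show φ h n = m from hh)]
    exact hE h' h fun x hx => hh' x hx

/-- **Theorem.** (1) Let the Polish group `G` act in a Borel way on the standard Borel space `X`
and let `A ⊆ X` be analytic.  Then `A` meets only countably many orbits, or perfectly many orbits,
or it contains points of uncountably many orbits whose stabiliser is divisible by the infinite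
symmetric group.

(2) Let `A` be an analytic set of structures and let `N` attach to each `M ∈ A` a group of
automorphisms of `M`, such that isomorphisms between members of `A` transport `N` and such that
`{M ∈ A | some n ∈ N M takes the list l to the list m}` is relatively Borel for all `l`, `m`.  Then
`A` meets only countably many isomorphism types, or perfectly many, or for uncountably many
isomorphism types of members `M` of `A` the automorphism group is divisible by the infinite symmetric
group modulo `N M`.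

(3) The hypotheses of (2) are satisfied by the finitary automorphisms. -/
theorem result :
    (∀ {G X : Type} [Group G] [TopologicalSpace G] [IsTopologicalGroup G]
      [PolishSpace G] [MeasurableSpace G] [BorelSpace G] [MeasurableSpace X]
      [StandardBorelSpace X] [MulAction G X], (Measurable fun p : G × X => p.1 • p.2) →
      ∀ A : Set X, IsAnalytic A → Conclusion G A fun _ => ⊥) ∧
    (∀ {C : Type} [MeasurableSpace C] [StandardBorelSpace C] (A : Set (Str C)), IsAnalytic A →
      ∀ N : Str C → Subgroup (Equiv.Perm ℕ),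
        (∀ M ∈ A, N M ≤ MulAction.stabilizer (Equiv.Perm ℕ) M) →
        (∀ M ∈ A, ∀ g : Equiv.Perm ℕ, g • M ∈ A → ∀ n ∈ N M, g * n * g⁻¹ ∈ N (g • M)) →
        (∀ l m : List ℕ, ∃ B : Set (Str C), MeasurableSet B ∧
          ∀ M ∈ A, M ∈ B ↔ ∃ n ∈ N M, l.map n = m) →
        Conclusion (Equiv.Perm ℕ) A N) ∧
    ∀ {C : Type} [MeasurableSpace C] [StandardBorelSpace C] (A : Set (Str C)), IsAnalytic A →
      Conclusion (Equiv.Perm ℕ) A finitaryAutomorphisms := by
  have key : ∀ {C : Type} [MeasurableSpace C] [StandardBorelSpace C] (A : Set (Str C)),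
      IsAnalytic A → ∀ N : Str C → Subgroup (Equiv.Perm ℕ),
        (∀ M ∈ A, N M ≤ MulAction.stabilizer (Equiv.Perm ℕ) M) →
        (∀ M ∈ A, ∀ g : Equiv.Perm ℕ, g • M ∈ A → ∀ n ∈ N M, g * n * g⁻¹ ∈ N (g • M)) →
        (∀ l m : List ℕ, ∃ B : Set (Str C), MeasurableSet B ∧
          ∀ M ∈ A, M ∈ B ↔ ∃ n ∈ N M, l.map n = m) →
        Conclusion (Equiv.Perm ℕ) A N := by
    intro C _ _ A hA N h1 h2 h3
    rcases Pool.Agent.H41.RLH.rlh_lists (C := C) A hA N
      (fun M hM n hn => smul_iff.1 (MulAction.mem_stabilizer_iff.1 (h1 M hM hn)))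
      (fun M hM M' hM' h hh n hn => by
        have h4 := smul_iff.2 hh
        subst h4
        exact h2 M hM h hM' n hn)
      h3 with ⟨T, hT, k⟩ | ⟨F, k1, k2, k3⟩ | k
    · left
      refine ⟨T, hT, fun M hM => ?_⟩
      obtain ⟨M', hM', g, hg⟩ := k M hM
      exact ⟨M', hM', g, smul_iff.2 hg⟩
    · right
      left
      exact ⟨F, k1, k2, fun u v huv ⟨g, hg⟩ => k3 u v huv ⟨g, smul_iff.1 hg⟩⟩
    · right
      right
      rintro ⟨T, hT, k1⟩
      refine k ⟨T, hT, fun M hM => ?_⟩
      obtain ⟨M', hM', g, hg⟩ := k1 M ⟨hM.1, divisible_of hM.2⟩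
      exact ⟨M', hM', g, smul_iff.1 hg⟩
  refine ⟨?_, key, ?_⟩
  · intro G X _ _ _ _ _ _ _ _ _ hact A hA
    rcases hA with rfl | ⟨f, hf, rfl⟩
    · exact Or.inl ⟨∅, countable_empty, fun x hx => hx.elim⟩
    rcases Pool.Agent.H71.HV.localHjorth G X hact f hf with ⟨c, hc⟩ | ⟨F, hF1, hF2⟩ | h
    · left
      refine ⟨range c, countable_range c, ?_⟩
      rintro _ ⟨z, rfl⟩
      obtain ⟨n, g, hg⟩ := hc z
      exact ⟨c n, ⟨n, rfl⟩, g, hg⟩
    · right
      left
      exact ⟨fun u => f (F u), hf.comp hF1.measurable, fun u => ⟨F u, rfl⟩,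
        fun u v huv ⟨g, hg⟩ => hF2 u v huv g hg⟩
    · right
      right
      rintro ⟨C, hC1, hC2⟩
      apply h
      have hdiv : ∀ z : ℕ → ℕ, (∃ H : Subgroup G, H ≤ MulAction.stabilizer G (f z) ∧
          IsClosed (H : Set G) ∧ ∃ φ : H →* Equiv.Perm ℕ, Function.Surjective φ ∧
            ∀ n m : ℕ, IsOpen {h : H | φ h n = m}) →
          DivisibleModulo ⊥ (MulAction.stabilizer G (f z)) := by
        rintro z ⟨H, e1, e2, φ, e3, e4⟩
        refine ⟨H, bot_le, e1, e2, φ, e3, e4, fun h hh => ?_⟩
        have h5 : h = 1 := Subtype.ext (Subgroup.mem_bot.1 hh)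
        rw [h5, map_one]
      by_cases hne : C.Nonempty
      · obtain ⟨c, rfl⟩ := hC1.exists_eq_range hne
        refine ⟨c, fun z hz => ?_⟩
        obtain ⟨_, ⟨n, rfl⟩, g, hg⟩ := hC2 (f z) ⟨⟨z, rfl⟩, hdiv z hz⟩
        exact ⟨n, g, hg⟩
      · refine ⟨fun _ => f 0, fun z hz => ?_⟩
        obtain ⟨y, hy, -⟩ := hC2 (f z) ⟨⟨z, rfl⟩, hdiv z hz⟩
        exact absurd ⟨y, hy⟩ hne
  · intro C _ _ A hA
    refine key A hA _ (fun M _ g hg => MulAction.mem_stabilizer_iff.2 hg.1)
      (fun M _ g _ n hn => ?_) fun l m => ?_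
    · have e1 : ∀ k : Equiv.Perm ℕ, k ∈ finitaryAutomorphisms M ↔
          k ∈ Pool.Agent.H41.RLH.LFin M := fun k =>
        ⟨fun h => ⟨smul_iff.1 h.1, h.2⟩, fun h => ⟨smul_iff.2 h.1, h.2⟩⟩
      have h6 := Pool.Agent.H41.RLH.lfin_tr (smul_iff.1 (rfl : g • M = g • M)) n ((e1 n).1 hn)
      exact ⟨smul_iff.2 h6.1, h6.2⟩
    · refine ⟨_, Pool.Agent.H41.RLH.measurable_fin (C := C) l m, fun M _ => ?_⟩
      constructor
      · rintro ⟨n, hn, h⟩
        exact ⟨n, ⟨smul_iff.2 hn.1, hn.2⟩, h⟩
      · rintro ⟨n, hn, h⟩
        exact ⟨n, ⟨smul_iff.1 hn.1, hn.2⟩, h⟩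

end Pool.Agent.H71.Keep.RelativeHjorth
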