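import Pool.Agent.H16.CX.Local

/-!
# The topological Vaught conjecture for `σ`-compact spaces and for tame orbits

Let the infinite symmetric group `S_∞ = Sym(ℕ)` act continuously on a separable metrizable space `X`.

* If `X` is `σ`-compact (in particular compact, or locally compact), then `X` has countably or
  perfectly many orbits.
* If the Borel structure of `X` is standard, then `X` has perfectly many orbits, or only countably
  many orbits contain a tame point.  For `k : ℕ` let `V k` be the pointwise stabilizer of
  `{0, ..., k - 1}`.  A point `x` is tame if for some `k` the closure of `V k • x` has a compatible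
  complete metric in which, for every `ε > 0`, all permutations in some `V n` move all points by at
  most `ε`.

Both are stated as one theorem; the points of `σ`-compact spaces are tame.
-/

set_option autoImplicit false

open Set

namespace Pool.Agent.Results.MP_5607ba_lc.TameActions

/-- The usual Polish topology of the infinite symmetric group: the topology of pointwise
convergence of `g` and of `g⁻¹`. -/
def permTopology : TopologicalSpace (Equiv.Perm ℕ) :=
  TopologicalSpace.induced
    (fun g : Equiv.Perm ℕ => ((g : ℕ → ℕ), (g.symm : ℕ → ℕ))) inferInstance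

/-- The action of the infinite symmetric group on `X` is continuous: the map `(g, x) ↦ g • x` is
continuous. -/
def ContinuousAction (X : Type) [TopologicalSpace X] [MulAction (Equiv.Perm ℕ) X] : Prop :=
  @Continuous (Equiv.Perm ℕ × X) X (@instTopologicalSpaceProd _ _ permTopology _) _
    (fun p => p.1 • p.2)

/-- The pointwise stabilizer of `{0, ..., k - 1}` in the infinite symmetric group. -/
def V (k : ℕ) : Set (Equiv.Perm ℕ) := {g | ∀ i < k, g i = i}

/-- The local orbit `V k • x`. -/
def localOrbit {X : Type} [MulAction (Equiv.Perm ℕ) X] (k : ℕ) (x : X) : Set X :=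
  {y | ∃ g ∈ V k, g • x = y}

/-- The point `x` is tame: for some `k` there is a complete metric `m` on the closure of the local
orbit `V k • x` which induces its topology, such that for every `ε > 0` there is `n` such that
the permutations in `V n` move the points of this closure by at most `ε`. -/
def Tame {X : Type} [TopologicalSpace X] [MulAction (Equiv.Perm ℕ) X] (x : X) : Prop :=
  ∃ k : ℕ, ∃ m : MetricSpace (closure (localOrbit k x)),
    m.toPseudoMetricSpace.toUniformSpace.toTopologicalSpace = instTopologicalSpaceSubtype ∧
    @CompleteSpace _ m.toPseudoMetricSpace.toUniformSpace ∧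
    ∀ ε > (0 : ℝ), ∃ n : ℕ, ∀ g ∈ V n, ∀ y z : closure (localOrbit k x), g • (y : X) = z →
      m.dist z y ≤ ε

/-- There are perfectly many orbits: some Borel map from the Cantor space takes distinct points to
points of distinct orbits. -/
def PerfectlyManyOrbits (X : Type) [TopologicalSpace X] [MulAction (Equiv.Perm ℕ) X] : Prop :=
  ∃ f : (ℕ → Bool) → X, @Measurable _ _ _ (borel X) f ∧
    ∀ u v, u ≠ v → ¬ ∃ g : Equiv.Perm ℕ, g • f u = f v

/-- Only countably many orbits contain a point with the property `P`. -/
def CountablyManyOrbitsWith {X : Type} [MulAction (Equiv.Perm ℕ) X] (P : X → Prop) : Prop :=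
  {q : Quotient (MulAction.orbitRel (Equiv.Perm ℕ) X) | ∃ x : X, P x ∧ ⟦x⟧ = q}.Countable

/-- **Theorem.** Let `S_∞` act continuously on a separable metrizable space `X` which is
`σ`-compact or has a standard Borel structure.  Then there are perfectly many orbits, or there are
only countably many orbits that contain a tame point (and only countably many orbits at all if `X`
is `σ`-compact). -/
theorem result (X : Type) [TopologicalSpace X] [TopologicalSpace.MetrizableSpace X]
    [SecondCountableTopology X] [MulAction (Equiv.Perm ℕ) X] (hact : ContinuousAction X)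
    (hX : SigmaCompactSpace X ∨ @StandardBorelSpace X (borel X)) :
    PerfectlyManyOrbits X ∨
      CountablyManyOrbitsWith (fun x : X => SigmaCompactSpace X ∨ Tame x) := by
  let mX : MeasurableSpace X := borel X
  have : BorelSpace X := ⟨rfl⟩
  have hst : StandardBorelSpace X := by
    rcases hX with h | h
    · exact Pool.Agent.H16.CX.standardBorelSpace_of_sigmaCompact X
    · exact h
  have key : (∃ f : (ℕ → Bool) → X, Measurable f ∧ ∀ s t, s ≠ t → ∀ g : Equiv.Perm ℕ,
      g • f s ≠ f t) ∨ ∃ D : Set X, D.Countable ∧ ∀ x : X, (SigmaCompactSpace X ∨ Tame x) →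
        ∃ g : Equiv.Perm ℕ, g • x ∈ D := by
    by_cases hs : SigmaCompactSpace X
    · rcases Pool.Agent.H16.CX.final Pool.Agent.H16.CX.loc Pool.Agent.H16.CX.bai X hact
        (Or.inl hs) with ⟨D, hD, h⟩ | h
      · exact Or.inr ⟨D, hD, fun x _ => h x⟩
      · exact Or.inl h
    · rcases Pool.Agent.H16.CX.local_dichotomy X hact with h | ⟨D, hD, h⟩
      · exact Or.inl h
      · exact Or.inr ⟨D, hD, fun x hx => h x (hx.resolve_left hs)⟩
  rcases key with ⟨f, hf, h⟩ | ⟨D, hD, h⟩
  · exact Or.inl ⟨f, hf, fun u v huv ⟨g, hg⟩ => h u v huv g hg⟩
  · right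
    refine (hD.image fun x : X => (⟦x⟧ : Quotient (MulAction.orbitRel (Equiv.Perm ℕ) X))).mono ?_
    rintro q ⟨x, hx, rfl⟩
    obtain ⟨g, hg⟩ := h x hx
    exact ⟨g • x, hg, Quotient.sound ⟨g, rfl⟩⟩

end Pool.Agent.Results.MP_5607ba_lc.TameActions
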